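import Pool.Agent.W477.ER.Stm

/-!
# Project ER, part ER-CAN: canonical sizes (BeCan, Canon)
-/

set_option autoImplicit false

namespace Pool.Agent.W991.ER

open Finset
open Pool.Agent.W477.ER

theorem gen (hS : AlSplit) (hP : PpBasic) (hB : BeBlock) (hPP : BePP)
    (q d l v r : ℕ) (hq : 2 ≤ q) (hd : d < q) (hv : 1 ≤ v) (hvq : v ≤ q) (hr : r ≤ q ^ (l + 1)) :
    be q 0 d (v * q ^ (l + 1) + pp q (l + 1) + r) =
      al q 0 d (q ^ (l + 1)) + al q 1 d ((v - 1) * q ^ (l + 1) + r) ∧
    be q 0 d (v * q ^ (l + 1) + pp q (l + 1) + r) =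
      ∑ i ∈ range v, al q i d (q ^ (l + 1)) + al q v d r := by
  obtain ⟨w, rfl⟩ : ∃ w, v = w + 1 := ⟨v - 1, by omega⟩
  have hw : w < q := by omega
  have hx : w * q ^ (l + 1) + r ≤ q ^ (l + 2) := by
    have h1 : (w + 1) * q ^ (l + 1) ≤ q * q ^ (l + 1) := Nat.mul_le_mul_right _ (by omega)
    have h2 : q ^ (l + 2) = q * q ^ (l + 1) := by rw [pow_succ q (l + 1)]; ring
    rw [h2]
    nlinarith
  have hpp := hP.2.2.1 q (l + 1)
  have e1 : (w + 1) * q ^ (l + 1) + pp q (l + 1) + r = pp q (l + 2) + (w * q ^ (l + 1) + r) := by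
    rw [show pp q (l + 2) = pp q (l + 1) + q ^ (l + 1) from hpp]
    ring
  have e2 : be q 0 d ((w + 1) * q ^ (l + 1) + pp q (l + 1) + r) =
      al q 0 d (q ^ (l + 1)) + al q 1 d (w * q ^ (l + 1) + r) := by
    rw [e1, hB q 0 d (l + 1) (w * q ^ (l + 1) + r) hq hx, hPP q 0 d (l + 1) hq (by omega)]
  have e3 : al q 1 d (w * q ^ (l + 1) + r) =
      ∑ i ∈ range w, al q (1 + i) d (q ^ (l + 1)) + al q (1 + w) d r :=
    hS q 1 d (l + 1) w r hq hw hr
  refine ⟨by simpa using e2, ?_⟩
  rw [e2, e3, Finset.sum_range_succ']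
  have e4 : ∑ i ∈ range w, al q (1 + i) d (q ^ (l + 1)) =
      ∑ i ∈ range w, al q (i + 1) d (q ^ (l + 1)) := by
    apply Finset.sum_congr rfl
    intro i _
    rw [Nat.add_comm 1 i]
  rw [e4, Nat.add_comm 1 w]
  omega

theorem beCan_of (hS : AlSplit) (hP : PpBasic) (hB : BeBlock) (hPP : BePP) : BeCan := by
  intro q d l v r hq hd hv hvd hr
  have h1 : r ≤ q ^ (l + 1) := by
    have h2 : (d - v) * q ^ l + q ^ l ≤ q * q ^ l := by
      have : (d - v + 1) * q ^ l ≤ q * q ^ l := Nat.mul_le_mul_right _ (by omega)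
      nlinarith
    have h3 : 1 ≤ q ^ l := Nat.one_le_pow _ _ (by omega)
    have h4 : q ^ (l + 1) = q * q ^ l := by rw [pow_succ]; ring
    omega
  exact gen hS hP hB hPP q d l v r hq hd hv (by omega) h1

theorem canon_of (hA : AlBasic) (hS : AlSplit) (hSat : AlSat) (hP : PpBasic) (hB : BeBlock)
    (hPP : BePP) : Canon := by
  intro q d N hq hd1 hd hN
  obtain ⟨-, -, -, hzero, -, -, hone⟩ := hA
  have hp0 := hP.1
  have hp1 := hP.2.1
  have hps := hP.2.2.1
  -- choose l
  have hex : ∃ m, N - 1 < pp q m := by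
    refine ⟨N, ?_⟩
    have : ∀ m, m ≤ pp q m := by
      intro m
      induction m with
      | zero => exact Nat.zero_le _
      | succ m ih =>
        rw [hps]
        have : 1 ≤ q ^ m := Nat.one_le_pow _ _ (by omega)
        omega
    have := this N
    omega
  classical
  obtain ⟨m, hm1, hm2⟩ : ∃ m, N - 1 < pp q m ∧ ∀ k, k < m → pp q k ≤ N - 1 := by
    refine ⟨Nat.find hex, Nat.find_spec hex, fun k hk => ?_⟩
    have := Nat.find_min hex hk
    omega
  have hpp2 : pp q 2 = 1 + q := by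
    have := hps q 1
    rw [hp1, pow_one] at this
    exact this
  have hm3 : 3 ≤ m := by
    by_contra hcon
    have hmono := hP.2.2.2.2.2 q m 2 (by omega)
    omega
  obtain ⟨l, rfl⟩ : ∃ l, m = l + 3 := ⟨m - 3, by omega⟩
  have hlo : pp q (l + 2) ≤ N - 1 := hm2 (l + 2) (by omega)
  have hpa : pp q (l + 2) = pp q (l + 1) + q ^ (l + 1) := hps q (l + 1)
  have hpb : pp q (l + 3) = pp q (l + 2) + q ^ (l + 2) := hps q (l + 2)
  have hpow : q ^ (l + 2) = q * q ^ (l + 1) := by rw [pow_succ q (l + 1)]; ring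
  have hpos : 0 < q ^ (l + 1) := Nat.pow_pos (by omega)
  set B := q ^ (l + 1) with hBdef
  obtain ⟨z, hz⟩ : ∃ z, N - 1 = pp q (l + 1) + z := ⟨N - 1 - pp q (l + 1), by omega⟩
  have hz1 : B ≤ z := by omega
  have hz2 : z < (q + 1) * B := by
    have : (q + 1) * B = q * B + B := by ring
    omega
  have hv1 : 1 ≤ z / B := by
    rw [Nat.one_le_div_iff hpos]
    exact hz1
  have hv2 : z / B ≤ q := by
    have : z / B < q + 1 := by
      rw [Nat.div_lt_iff_lt_mul hpos]
      exact hz2
    omega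
  have hmod : z % B < B := Nat.mod_lt _ hpos
  have hdm : B * (z / B) + z % B = z := Nat.div_add_mod z B
  set v0 := z / B with hv0
  set r0 := z % B + 1 with hr0
  have hNeq : N = v0 * B + pp q (l + 1) + r0 := by
    have : B * v0 = v0 * B := Nat.mul_comm _ _
    omega
  have hg0 := (gen hS hP hB hPP q d l v0 r0 hq hd hv1 hv2 (by omega)).2
  rw [← hBdef] at hg0
  by_cases hvd : v0 ≤ d
  · set R := (d - v0) * q ^ l + 1 with hR
    have hRle : R ≤ B := by
      have h2 : (d - v0) * q ^ l + q ^ l ≤ q * q ^ l := by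
        have : (d - v0 + 1) * q ^ l ≤ q * q ^ l := Nat.mul_le_mul_right _ (by omega)
        nlinarith
      have h3 : 1 ≤ q ^ l := Nat.one_le_pow _ _ (by omega)
      have h4 : q ^ (l + 1) = q * q ^ l := by rw [pow_succ]; ring
      omega
    refine ⟨l, v0, min r0 R, hv1, hvd, by omega, Nat.min_le_right _ _, ?_, ?_⟩
    · rw [← hBdef]
      have := Nat.min_le_left r0 R
      omega
    · have hg1 := (gen hS hP hB hPP q d l v0 (min r0 R) hq hd hv1 hv2 (by omega)).2
      rw [← hBdef] at hg1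
      rw [← hBdef, hg1, hNeq, hg0]
      congr 1
      rcases le_total r0 R with h | h
      · rw [Nat.min_eq_left h]
      · rw [Nat.min_eq_right h]
        rw [hSat q v0 d l r0 hq hvd (by omega) h (by omega),
          hSat q v0 d l R hq hvd (by omega) le_rfl hRle]
  · push Not at hvd
    refine ⟨l, d, 1, hd1, le_rfl, le_rfl, by omega, ?_, ?_⟩
    · rw [← hBdef]
      have : d * B ≤ v0 * B := Nat.mul_le_mul_right _ hvd.le
      omega
    · have hg1 := (gen hS hP hB hPP q d l d 1 hq hd hd1 hd.le (by omega)).2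
      rw [← hBdef] at hg1
      rw [← hBdef, hg1, hNeq, hg0]
      have hz0 : al q v0 d r0 = 0 := hzero q v0 d r0 hvd
      have hsum : ∑ i ∈ range v0, al q i d B = ∑ i ∈ range (d + 1), al q i d B := by
        symm
        apply Finset.sum_subset
        · intro i hi
          rw [mem_range] at hi ⊢
          omega
        · intro i _ hi
          rw [mem_range] at hi
          exact hzero q i d B (by omega)
      rw [hz0, hsum, Finset.sum_range_succ, hone q d B hq hpos, hone q d 1 hq le_rfl]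

end Pool.Agent.W991.ER

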