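import Pool.Agent.W646.ER.CL

/-!
# Project ER, part ER-LEMA: the lemma LemA
-/

set_option autoImplicit false

namespace Pool.Agent.W991.ER

open Finset
open Pool.Agent.W477.ER
open Pool.Agent.W646.ER (ini ini_sum ini_anti ini_mono init_count al_nil)

theorem slice (hS : AlSplit) (q i e l e' x : ℕ) (hq : 2 ≤ q) (he : e' ≤ q)
    (hx : x ≤ e' * q ^ l) :
    al q i e x = ∑ a ∈ range e', al q (i + a) e (ini (q ^ l) x a) := by
  induction e' with
  | zero =>
    have : x = 0 := by simpa using hx
    subst this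
    simp [al_nil]
  | succ e' ih =>
    rw [sum_range_succ]
    by_cases h : x ≤ e' * q ^ l
    · rw [← ih (by omega) h]
      have : ini (q ^ l) x e' = 0 := by
        unfold ini
        rw [Nat.sub_eq_zero_of_le h, Nat.min_zero]
      rw [this, al_nil, add_zero]
    · push Not at h
      obtain ⟨y, rfl⟩ : ∃ y, x = e' * q ^ l + y := ⟨x - e' * q ^ l, by omega⟩
      have hy : y ≤ q ^ l := by
        rw [add_mul, one_mul] at hx
        omega
      rw [hS q i e l e' y hq (by omega) hy]
      congr 1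
      · refine Finset.sum_congr rfl fun a ha => ?_
        rw [mem_range] at ha
        have h2 : q ^ l ≤ e' * q ^ l - a * q ^ l := by
          rw [← Nat.sub_mul]
          exact Nat.le_mul_of_pos_left _ (by omega)
        unfold ini
        rw [min_eq_left (by omega)]
      · unfold ini
        rw [Nat.add_sub_cancel_left, min_eq_right hy]

theorem second (hA : AlBasic) (hS : AlSplit) (hSat : AlSat) (q R e l Y : ℕ) (hq : 2 ≤ q)
    (hR : R ≤ q) (he : e + 1 ≤ R) (he1 : 1 ≤ e) (hY : Y ≤ (e - 1) * (R * q ^ l)) :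
    al q 1 e Y ≤ ∑ j ∈ range (e - 1), al q (j + 1) e (ini (R * q ^ l) Y j) := by
  obtain ⟨hmono, -, -, -, -, -, -⟩ := hA
  have hpos : 0 < q ^ l := Nat.pow_pos (by omega)
  have hQ : q ^ (l + 1) = q * q ^ l := by rw [pow_succ]; ring
  have hMQ : R * q ^ l ≤ q ^ (l + 1) := by
    rw [hQ]
    exact Nat.mul_le_mul_right _ hR
  set M := R * q ^ l with hM
  set Q := q ^ (l + 1) with hQd
  have hQpos : 0 < Q := Nat.pow_pos (by omega)
  have hsatM : ∀ a, 1 ≤ a → a ≤ e → (e - a) * q ^ l + 1 ≤ M := by
    intro a ha hae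
    have h1 : (e - a + 1) * q ^ l ≤ R * q ^ l := Nat.mul_le_mul_right _ (by omega)
    have h2 : (e - a + 1) * q ^ l = (e - a) * q ^ l + q ^ l := by ring
    omega
  obtain ⟨A, y, hy, rfl⟩ : ∃ A y, y < Q ∧ Y = A * Q + y :=
    ⟨Y / Q, Y % Q, Nat.mod_lt _ hQpos, by rw [mul_comm]; exact (Nat.div_add_mod Y Q).symm⟩
  have hAe : A ≤ e - 1 := by
    by_contra hcon
    push Not at hcon
    have h1 : (e - 1 + 1) * Q ≤ A * Q := Nat.mul_le_mul_right _ hcon
    have h2 : (e - 1) * M ≤ (e - 1) * Q := Nat.mul_le_mul_left _ hMQ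
    have h3 : (e - 1 + 1) * Q = (e - 1) * Q + Q := by ring
    omega
  rw [hS q 1 e (l + 1) A y hq (by omega) hy.le, ← hQd]
  have hfirst : ∀ j ∈ range A, al q (1 + j) e Q ≤ al q (j + 1) e (ini M (A * Q + y) j) := by
    intro j hj
    rw [mem_range] at hj
    have h1 : M ≤ A * Q + y - j * M := by
      have h2 : (j + 1) * M ≤ A * Q := Nat.mul_le_mul hj hMQ
      have h3 : (j + 1) * M = j * M + M := by ring
      omega
    have h4 : ini M (A * Q + y) j = M := by
      unfold ini
      exact min_eq_left h1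
    rw [h4, add_comm 1 j]
    exact (hSat q (j + 1) e l M hq (by omega) (by omega) (hsatM (j + 1) (by omega) (by omega))
      hMQ).ge
  rcases Nat.lt_or_ge A (e - 1) with hlt | hge
  · have h1 : ∑ j ∈ range (A + 1), al q (j + 1) e (ini M (A * Q + y) j) ≤
        ∑ j ∈ range (e - 1), al q (j + 1) e (ini M (A * Q + y) j) := by
      apply Finset.sum_le_sum_of_subset
      intro j hj
      rw [mem_range] at hj ⊢
      omega
    refine le_trans ?_ h1
    rw [Finset.sum_range_succ]
    refine Nat.add_le_add (Finset.sum_le_sum hfirst) ?_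
    rw [add_comm 1 A]
    have h2 : min M y ≤ ini M (A * Q + y) A := by
      unfold ini
      have h3 : A * M ≤ A * Q := Nat.mul_le_mul_left _ hMQ
      refine min_le_min le_rfl ?_
      omega
    refine le_trans ?_ (hmono q (A + 1) e _ _ h2)
    rcases le_total y M with hyM | hyM
    · rw [min_eq_right hyM]
    · rw [min_eq_left hyM]
      have h5 := hsatM (A + 1) (by omega) (by omega)
      rw [hSat q (A + 1) e l M hq (by omega) (by omega) h5 hMQ,
        hSat q (A + 1) e l y hq (by omega) (by omega) (by omega) hy.le]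
  · have hAeq : A = e - 1 := by omega
    have hy0 : y = 0 := by
      have h2 : (e - 1) * M ≤ (e - 1) * Q := Nat.mul_le_mul_left _ hMQ
      rw [hAeq] at hY
      omega
    subst hy0
    rw [al_nil, add_zero, hAeq] at *
    exact Finset.sum_le_sum hfirst

theorem lemA_of (hCL : CL) (hL : LAY) (hA : AlBasic) (hS : AlSplit) (hSat : AlSat) : LemA := by
  intro q R e l Y x hq hR he hx hx0 hsum
  have hpos : 0 < q ^ l := Nat.pow_pos (by omega)
  have hMpos : 0 < R * q ^ l := Nat.mul_pos (by omega) hpos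
  have hxi : ∀ i, x i ≤ e * q ^ l := fun i => (hx (Nat.zero_le i)).trans hx0
  rcases Nat.eq_zero_or_pos e with he0 | he1
  · exfalso
    subst he0
    have : ∑ i ∈ range R, x i = 0 := by
      apply Finset.sum_eq_zero
      intro i _
      have := hxi i
      omega
    omega
  -- the slices
  have h1 : ∀ i, al q i e (x i) = ∑ a ∈ range e, al q (i + a) e (ini (q ^ l) (x i) a) :=
    fun i => slice hS q i e l e (x i) hq (by omega) (hxi i)
  have h2 : ∑ a ∈ range e, (∑ i ∈ range R, ini (q ^ l) (x i) a) = ∑ i ∈ range R, x i := by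
    rw [Finset.sum_comm]
    refine Finset.sum_congr rfl fun i _ => ?_
    rw [ini_sum, min_eq_right (hxi i)]
  have h3 : ∑ a ∈ range e, al q a e (∑ i ∈ range R, ini (q ^ l) (x i) a) ≤
      ∑ i ∈ range R, al q i e (x i) := by
    calc ∑ a ∈ range e, al q a e (∑ i ∈ range R, ini (q ^ l) (x i) a)
        ≤ ∑ a ∈ range e, ∑ i ∈ range R, al q (a + i) e (ini (q ^ l) (x i) a) := by
          apply Finset.sum_le_sum
          intro a _
          exact hL q R a e (fun i => ini (q ^ l) (x i) a) hq hR
            (fun i j hij => ini_mono (q ^ l) a (hx hij))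
      _ = ∑ i ∈ range R, al q i e (x i) := by
          rw [Finset.sum_comm]
          refine Finset.sum_congr rfl fun i _ => ?_
          rw [h1 i]
          refine Finset.sum_congr rfl fun a _ => ?_
          rw [add_comm a i]
  have h4 := hCL q l e R e (fun a => ∑ i ∈ range R, ini (q ^ l) (x i) a) hq (by omega) hR
    (fun a b hab => Finset.sum_le_sum fun i _ => ini_anti (q ^ l) (x i) hab)
    (by
      calc ∑ i ∈ range R, ini (q ^ l) (x i) 0 ≤ ∑ _i ∈ range R, q ^ l := by
            apply Finset.sum_le_sum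
            intro i _
            unfold ini
            exact min_le_left _ _
        _ = R * q ^ l := by simp)
  rw [h2] at h4
  refine le_trans ?_ (h4.trans h3)
  have hSle : ∑ i ∈ range R, x i ≤ e * (R * q ^ l) := by
    calc ∑ i ∈ range R, x i ≤ ∑ _i ∈ range R, e * q ^ l := Finset.sum_le_sum fun i _ => hxi i
      _ = e * (R * q ^ l) := by
          rw [Finset.sum_const, card_range, smul_eq_mul]
          ring
  rw [init_count q (R * q ^ l) e hMpos e _ hSle]
  obtain ⟨e', rfl⟩ : ∃ e', e = e' + 1 := ⟨e - 1, by omega⟩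
  rw [Finset.sum_range_succ']
  have hMQ : R * q ^ l ≤ q ^ (l + 1) := by
    rw [pow_succ, mul_comm (q ^ l) q]
    exact Nat.mul_le_mul_right _ hR
  have hfirst : al q 0 (e' + 1) (q ^ (l + 1)) =
      al q 0 (e' + 1) (min (R * q ^ l) (∑ i ∈ range R, x i - 0 * (R * q ^ l))) := by
    rw [zero_mul, Nat.sub_zero, min_eq_left (by omega)]
    refine (hSat q 0 (e' + 1) l (R * q ^ l) hq (by omega) (by omega) ?_ hMQ).symm
    have h5 : (e' + 1 + 1) * q ^ l ≤ R * q ^ l := Nat.mul_le_mul_right _ he
    have h6 : (e' + 1 + 1) * q ^ l = (e' + 1) * q ^ l + q ^ l := by ring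
    rw [Nat.sub_zero]
    omega
  rw [← hfirst, add_comm]
  refine Nat.add_le_add ?_ le_rfl
  have hYle : Y ≤ (e' + 1 - 1) * (R * q ^ l) := by
    rw [Nat.add_sub_cancel]
    have : (e' + 1) * (R * q ^ l) = e' * (R * q ^ l) + R * q ^ l := by ring
    omega
  refine (second hA hS hSat q R (e' + 1) l Y hq hR he (by omega) hYle).trans ?_
  rw [Nat.add_sub_cancel]
  apply Finset.sum_le_sum
  intro j _
  apply hA.1
  unfold ini
  refine min_le_min le_rfl ?_
  have : (j + 1) * (R * q ^ l) = j * (R * q ^ l) + R * q ^ l := by ring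
  omega

end Pool.Agent.W991.ER

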